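import Pool.Agent.H68K.PR.StmL

/-!
# Project JG: bad polynomials with conditions at the auxiliary primes, every genus

As `XsetT`, `LBadT`, `S_CQN`, `S_BADT`, `S_LBT` in `H68K/PR/StmT.lean`, for every genus `g`.
-/

set_option autoImplicit false
set_option linter.all false

open Polynomial IsDedekindDomain Matrix NumberField WithZero
open scoped Classical

namespace Pool.Agent.H68G

open Pool.Agent.N352.PJ (Mt Typ dd)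
open Pool.Agent.N783.PQ (chp form Dist Gap Mid Deep eA eB eU uu)
open Pool.Agent.N874.PP (Ev Sq1 U0)
open Pool.Agent.N783.PF

/-- Over a finite field, symmetric matrices `B` which are not distinguished with respect to `A`,
with given characteristic polynomial `x h(x)`. -/
def S_CQNg : Prop := ∀ (g : ℕ) (κ : Type) [Field κ] [Finite κ], 1 ≤ g → (2 : κ) ≠ 0 →
  ∀ h : κ[X], h.Monic → Irreducible h → h.natDegree = 2 * g → ∀ A : Mt g κ, A.IsSymm →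
  (∃ x : κ, x ≠ 0 ∧ A.det = (-1) ^ g * x ^ 2) →
  2 * Nat.card {B : Mt g κ // B.IsSymm ∧ chp A B = X * h ∧ ¬ Dist A B} ≤
    Nat.card κ ^ (g * (2 * g + 1))

section fld

variable {F : Type} [Field F] [NumberField F]

/-- Distinguished at `q ∈ Z` and not distinguished at `q ∈ U`. -/
structure XsetT (g N c : ℕ) (w : Fin (2 * g + 1) → ℤ) (S Z U : Finset ℕ) (𝔮 : ℕ → Ideal (𝓞 F))
    (P : ℕ → (𝓞 F)[X]) (A B : Mt g (𝓞 F)) : Prop where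
  box : Box g N c w A B
  con : ∀ q ∈ S, (∀ 𝔭 : Ideal (𝓞 F), 𝔭.IsPrime → (q : 𝓞 F) ∈ 𝔭 → A.det ∉ 𝔭) →
    ∀ 𝔭 : Ideal (𝓞 F), 𝔭.IsPrime → (q : 𝓞 F) ∈ 𝔭 → chp (rm 𝔭 A) (rm 𝔭 B) = rd 𝔭 (P q)
  dist : ∀ q ∈ Z, (∀ 𝔭 : Ideal (𝓞 F), 𝔭.IsPrime → (q : 𝓞 F) ∈ 𝔭 → A.det ∉ 𝔭) →
    Dist (rm (𝔮 q) A) (rm (𝔮 q) B)
  ndist : ∀ q ∈ U, (∀ 𝔭 : Ideal (𝓞 F), 𝔭.IsPrime → (q : 𝓞 F) ∈ 𝔭 → A.det ∉ 𝔭) →
    ¬ Dist (rm (𝔮 q) A) (rm (𝔮 q) B)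

/-- The polynomial `f` is irreducible and comes from a pair. -/
def LBadT (g N c : ℕ) (S Z U : Finset ℕ) (𝔮 : ℕ → Ideal (𝓞 F)) (P : ℕ → (𝓞 F)[X])
    (f : (𝓞 F)[X]) : Prop :=
  Irreducible (fF f) ∧ ∃ w, Typ g w ∧ Gap g N w ∧ Mid g N w ∧
    ∃ A B : Mt g (𝓞 F), XsetT g N c w S Z U 𝔮 P A B ∧ chp (mF A) (mF B) = fF f

end fld

/-- Few bad polynomials. -/
def S_BADTg : Prop := ∀ (F : Type) [Field F] [NumberField F] (g : ℕ), 1 ≤ g → ∃ C β K : ℕ,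
  ∀ (c W : ℕ) (S Z U : Finset ℕ) (𝔮 : ℕ → Ideal (𝓞 F)) (h P : ℕ → (𝓞 F)[X]), K ≤ W →
  GoodS g W S 𝔮 h P → Z ⊆ S → U ⊆ S → Disjoint Z U → ∃ N₀ : ℕ, ∀ N ≥ N₀,
  {f : (𝓞 F)[X] | LBadT g N c S Z U 𝔮 P f}.Finite ∧
  2 ^ (Z.card + U.card) * (∏ q ∈ S, q ^ (2 * g)) ^ Module.finrank ℚ F *
      {f : (𝓞 F)[X] | LBadT g N c S Z U 𝔮 P f}.ncard ≤
    2 ^ (C + β * c) * 2 ^ (Module.finrank ℚ F * (2 * N * dd g))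

/-- From a class ramified at most at the big primes over `Q`, trivial over `Z` and nontrivial
over `U` to a bad polynomial. -/
def S_LBTg : Prop := ∀ (g : ℕ) (F : Type) [Field F] [NumberField F], 1 ≤ g → ∃ κ β : ℕ,
  ∀ (L : Type) [Field L] [NumberField L] [Algebra F L] (f : (𝓞 F)[X]) (θ : L) (B N W l : ℕ)
  (S Q Z U : Finset ℕ) (𝔮 : ℕ → Ideal (𝓞 F)) (h P : ℕ → (𝓞 F)[X]), κ ≤ W → GoodS g W S 𝔮 h P →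
  IsGen g f θ → SqF g f → Ht g B f → 2 ^ (κ + β * l) * B ≤ 4 ^ N →
  (∀ q ∈ S, Cg (sp F q) f (P q)) → Q ⊆ S → Z ⊆ S \ Q → U ⊆ S \ Q → ∏ q ∈ Q, q ≤ 2 ^ l →
  ∀ α : L, α ≠ 0 → IsSquare (Algebra.norm F α) → ¬ IsSquare α →
  (∀ 𝔓 : HeightOneSpectrum (𝓞 L), (∀ q ∈ Q, Ov (𝔮 q) 𝔓 → 𝔓.valuation L θ ≠ 1) → Ev 𝔓 α) →
  (∀ q ∈ Z, ∀ 𝔓 : HeightOneSpectrum (𝓞 L), Ov (𝔮 q) 𝔓 → Sq1 𝔓 α) →
  (∀ q ∈ U, ∃ 𝔓 : HeightOneSpectrum (𝓞 L), Ov (𝔮 q) 𝔓 ∧ ¬ Sq1 𝔓 α) →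
  LBadT g N (κ + β * l) (S \ Q) Z U 𝔮 P f

end Pool.Agent.H68G
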