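import Pool.Agent.H68K.PR.DistD
import Pool.Agent.H68G.Defs
import Pool.Agent.N438.PF.LB
import Pool.Agent.N771.PF.Core

/-!
# Project JG (helper18, helper68), part LBT: from a class to a pair of symmetric matrices, every genus

As `LBQ.lean` (after `N438/PF/LB.lean` of helper438), with the condition that the pair is not
distinguished at the primes where the class is not trivial.
-/

set_option autoImplicit false
set_option linter.all false

open Polynomial IsDedekindDomain Matrix NumberField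
open scoped Classical

namespace Pool.Agent.H68G

open Pool.Agent.N783.PF
open Pool.Agent.H68K.PR (typD sdD tvD chiD distD sq1D)
open Pool.Agent.N352.PJ (Mt Typ dd)
open Pool.Agent.N783.PQ (chp form Dist Gap Mid Deep eA eB eU uu)
open Pool.Agent.N874.PP (Ev Sq1 U0)
open Pool.Agent.N438.PF (norm_le norm_pos Bd_nonneg zero_of_Bd zero_of_z irrF one_le_B HH_nonneg
  four_zpow prod_zpow2 sum_typ det_le')

theorem lbt (h2 : S_MAJ) (h4 : S_SQ) (hI : S_INT) : S_LBTg := by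
  intro g F _ _ hg
  obtain ⟨C₀, β₀, hC⟩ := typD h2 g F
  obtain ⟨d, hd⟩ : ∃ d : ℕ, d = Module.finrank ℚ F := ⟨_, rfl⟩
  obtain ⟨f₀, hf₀⟩ : ∃ f₀ : ℕ, f₀ = (2 * g + 1).factorial := ⟨_, rfl⟩
  refine ⟨2 * C₀ + 2 * g + 2 + d * (f₀ + 2 * C₀ * (2 * g + 1)),
    2 * β₀ + d * (2 * β₀ * (2 * g + 1)), ?_⟩
  intro L _ _ _ f θ B N W l S Q Z U 𝔮 h P hκW hS hG hsqf hHt hBN hcg hQS hZS hUS hQl α hα hnorm hns hev hsq1 hnsq
  obtain ⟨C, hCd⟩ : ∃ C : ℕ, C = C₀ + β₀ * l := ⟨_, rfl⟩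
  obtain ⟨K0, hK0⟩ : ∃ K0 : ℕ, K0 =
    ((2 * g + 1).factorial * 2 ^ (2 * C * (2 * g + 1))) ^ Module.finrank ℚ F := ⟨_, rfl⟩
  obtain ⟨κ, hκ⟩ : ∃ κ, κ = 2 * C₀ + 2 * g + 2 + d * (f₀ + 2 * C₀ * (2 * g + 1)) +
    (2 * β₀ + d * (2 * β₀ * (2 * g + 1))) * l := ⟨_, rfl⟩
  have hκ2 : κ = 2 * C + 2 * g + 2 + d * (f₀ + 2 * C * (2 * g + 1)) := by
    rw [hκ, hCd]
    ring
  have hK0κ : K0 ≤ 2 ^ κ := by
    have t1 : K0 ≤ (2 ^ f₀ * 2 ^ (2 * C * (2 * g + 1))) ^ d := by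
      rw [hK0, ← hd, ← hf₀]
      exact Nat.pow_le_pow_left (Nat.mul_le_mul_right _ Nat.lt_two_pow_self.le) _
    refine t1.trans ?_
    rw [← pow_add, ← pow_mul]
    refine Nat.pow_le_pow_right (by norm_num) ?_
    rw [hκ2, mul_comm (f₀ + _) d]
    omega
  rw [← hκ] at hBN ⊢
  -- the lattice
  obtain ⟨D₁, hD₁⟩ : ∃ D₁ : ℕ, D₁ = ∏ q ∈ Q, q := ⟨_, rfl⟩
  have hD0 : D₁ ≠ 0 := by
    rw [hD₁]
    exact Finset.prod_ne_zero_iff.2 fun q hq => (hS q (hQS hq)).1.ne_zero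
  rw [← hD₁] at hQl
  have hev' : ∀ 𝔓 : HeightOneSpectrum (𝓞 L), Ev 𝔓 α ∨ (D₁ : 𝓞 L) ∈ 𝔓.asIdeal := by
    intro 𝔓
    by_cases h' : ∀ q ∈ Q, Ov (𝔮 q) 𝔓 → 𝔓.valuation L θ ≠ 1
    · exact Or.inl (hev 𝔓 h')
    · right
      push Not at h'
      obtain ⟨q, hq, hov, -⟩ := h'
      have h1 := hov _ (hS q (hQS hq)).2.2.2.2.2.2.1
      rw [map_natCast] at h1
      rw [hD₁, ← Finset.mul_prod_erase Q (fun q => q) hq, Nat.cast_mul]
      exact 𝔓.asIdeal.mul_mem_right _ h1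
  obtain ⟨Λ, hSDn, hLat⟩ := sdD hI g F L f θ hG hsqf α hα D₁ hev'
  have hcg' : ∀ q ∈ S, Cg (𝔮 q) f (X * h q) := by
    intro q hq j
    obtain ⟨-, -, -, -, -, -, hmem, -, -, -, -, -, -, hcg1, -⟩ := hS q hq
    have h1 := hcg q hq j
    have h2 : sp F q ≤ 𝔮 q := by
      rw [sp, Ideal.span_singleton_le_iff_mem]
      exact hmem
    have h3 := Ideal.add_mem _ (h2 h1) (hcg1 j)
    have e : f.coeff j - (X * h q).coeff j =
        f.coeff j - (P q).coeff j + ((P q).coeff j - (X * h q).coeff j) := by ring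
    rw [e]
    exact h3
  have hdist : ∀ q ∈ Z, DVec hG α Λ (𝔮 q) := by
    intro q hq
    have hqS : q ∈ S := (Finset.mem_sdiff.1 (hZS hq)).1
    obtain ⟨hb, hs⟩ := Pool.Agent.N771.PF.sep_q hg hS hqS (hcg' q hqS)
    exact tvD hI g F L f θ hG hsqf α Λ hα hSDn (𝔮 q) (hS q hqS).2.2.2.2.2.1 hb hs (hsq1 q hq)
  have hB1 : 1 ≤ B := one_le_B hg hG hHt
  have hκN : κ ≤ 2 * N := by
    have t1 : 2 ^ κ ≤ 4 ^ N := le_trans (Nat.le_mul_of_pos_right _ hB1) hBN
    rw [show (4 : ℕ) = 2 ^ 2 by norm_num, ← pow_mul] at t1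
    exact (Nat.pow_le_pow_iff_right (by norm_num)).1 t1
  have hBN1 : (B : ℝ) ≤ 4 ^ N := by
    have t1 : B ≤ 4 ^ N := le_trans (Nat.le_mul_of_pos_left _ (by positivity)) hBN
    exact_mod_cast t1
  have hB0 : (1 : ℝ) ≤ B := by exact_mod_cast hB1
  obtain ⟨e, w, heΛ, hli, hTyp, hew⟩ := hC hg B L f θ hG D₁ l α Λ hD0 hQl hHt hα hLat
  rw [← hCd] at hew
  obtain ⟨A, A', hGr, sA, sA', hdet0, hchp, htr, hdet, hmod⟩ :=
    chiD g F L f θ hG D₁ α Λ e hHt.tr hα hLat heΛ hli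
  obtain ⟨hmaj, hmaj2⟩ := h2 g B F L f θ hg hG hHt
  obtain ⟨x, hx0, hxd⟩ := hdet hnorm
  -- bounds
  have bA' : ∀ i j, Bd (A i j : F) ((2 : ℝ) ^ (2 * (C : ℤ) + w i + w j)) := by
    intro i j σ
    have t1 := hmaj α hα σ 0 (e i) (e j)
    rw [pow_zero, one_mul, mul_zero, pow_zero, one_mul, ← hGr.gA] at t1
    have t2 : HH f θ α (e i) * HH f θ α (e j) ≤ ((2 : ℝ) ^ (2 * (C : ℤ) + w i + w j)) ^ 2 := by
      refine (mul_le_mul (hew i) (hew j) (HH_nonneg _ _) (by positivity)).trans (le_of_eq ?_)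
      rw [← zpow_add₀ (by norm_num), ← four_zpow]
      congr 1
      ring
    exact (sq_le_sq₀ (norm_nonneg _) (by positivity)).1 (t1.trans t2)
  have bA : ∀ i j, Bd (A i j : F) ((2 : ℝ) ^ ((κ : ℤ) + w i + w j)) := by
    intro i j σ
    refine (bA' i j σ).trans (zpow_le_zpow_right₀ (by norm_num) ?_)
    rw [hκ2]
    push_cast
    have : (0 : ℤ) ≤ g := by positivity
    have : (0 : ℤ) ≤ d * (f₀ + 2 * C * (2 * g + 1)) := by positivity
    linarith
  have bB : ∀ i j, Bd (A' i j : F) ((2 : ℝ) ^ (2 * (N : ℤ) + w i + w j)) := by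
    intro i j σ
    have t1 := hmaj α hα σ 1 (e i) (e j)
    rw [pow_one, mul_one, ← hGr.gB] at t1
    have t2 : (2 * B : ℝ) ^ 2 * (HH f θ α (e i) * HH f θ α (e j)) ≤
        ((2 * (B : ℝ)) * (2 : ℝ) ^ (2 * (C : ℤ) + w i + w j)) ^ 2 := by
      rw [mul_pow (2 * (B : ℝ)) _]
      refine mul_le_mul_of_nonneg_left ?_ (sq_nonneg _)
      refine (mul_le_mul (hew i) (hew j) (HH_nonneg _ _) (by positivity)).trans (le_of_eq ?_)
      rw [← zpow_add₀ (by norm_num), ← four_zpow]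
      congr 1
      ring
    have t3 := (sq_le_sq₀ (norm_nonneg _) (by positivity)).1 (t1.trans t2)
    refine t3.trans ?_
    have t4 : (2 * (B : ℝ)) * (2 : ℝ) ^ (2 * (C : ℤ)) ≤ (2 : ℝ) ^ (2 * (N : ℤ)) := by
      have t5 : 2 * B * 2 ^ (2 * C) ≤ 2 ^ (2 * N) := by
        calc 2 * B * 2 ^ (2 * C) = 2 ^ (2 * C + 1) * B := by ring
          _ ≤ 2 ^ κ * B := Nat.mul_le_mul_right _ (Nat.pow_le_pow_right (by norm_num) (by rw [hκ2]; omega))
          _ ≤ 4 ^ N := hBN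
          _ = 2 ^ (2 * N) := by rw [show (4 : ℕ) = 2 ^ 2 by norm_num, ← pow_mul]
      exact_mod_cast t5
    calc 2 * (B : ℝ) * (2 : ℝ) ^ (2 * (C : ℤ) + w i + w j)
        = (2 * (B : ℝ)) * (2 : ℝ) ^ (2 * (C : ℤ)) * (2 : ℝ) ^ (w i + w j) := by
          rw [add_assoc, zpow_add₀ (by norm_num)]
          ring
      _ ≤ (2 : ℝ) ^ (2 * (N : ℤ)) * (2 : ℝ) ^ (w i + w j) :=
          mul_le_mul_of_nonneg_right t4 (by positivity)
      _ = (2 : ℝ) ^ (2 * (N : ℤ) + w i + w j) := by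
          rw [add_assoc, ← zpow_add₀ (by norm_num)]
  -- the size of x
  have hxn : Ideal.absNorm (Ideal.span {x}) ≤ K0 := by
    have t1 : Bd ((x ^ 2 : 𝓞 F) : F) (((2 * g + 1).factorial * 2 ^ (2 * C * (2 * g + 1)) : ℕ) : ℝ) := by
      intro σ
      have t2 := det_le' hTyp bA' σ
      rw [hxd] at t2
      have t3 : ‖σ (((-1) ^ g * x ^ 2 : 𝓞 F) : F)‖ = ‖σ ((x ^ 2 : 𝓞 F) : F)‖ := by
        rcases neg_one_pow_eq_or (𝓞 F) g with t4 | t4
        · rw [t4, one_mul]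
        · rw [t4, neg_one_mul]
          simp
      rwa [t3] at t2
    have t2 := norm_le _ t1
    have t3 : Ideal.absNorm (Ideal.span {x ^ 2}) ≤ K0 := by
      rw [hK0]
      exact_mod_cast t2
    refine le_trans ?_ t3
    have t4 : Ideal.span {x ^ 2} = Ideal.span {x} * Ideal.span {x} := by
      rw [Ideal.span_singleton_mul_span_singleton, sq]
    rw [t4, map_mul]
    exact Nat.le_mul_of_pos_left _ (norm_pos hx0)
  have hnb : ∀ q ∈ S, ∀ 𝔭 : Ideal (𝓞 F), (q : 𝓞 F) ∈ 𝔭 → 𝔭 ≠ ⊥ := by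
    intro q hq 𝔭 hqp hb
    rw [hb, Ideal.mem_bot] at hqp
    have : (q : 𝓞 F) ≠ 0 := Nat.cast_ne_zero.2 (hS q hq).1.ne_zero
    exact this hqp
  -- the type
  refine ⟨irrF hG, w, hTyp, ?_, ?_, A, A', ⟨⟨sA, sA', ⟨x, hx0, hxd, ?_⟩, htr, bA, bB⟩, ?_, ?_, ?_⟩,
    hchp⟩
  · -- gaps
    intro i j hij
    by_contra hcon'
    push Not at hcon'
    have hi : (i : ℕ) + 1 < 2 * g + 1 := by
      rw [← hij]
      exact j.2
    obtain ⟨a, ha, b, hb, hab⟩ := Pool.Agent.N530.PQ.gap g F (mF A) (mF A')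
      (by
        have := congrArg (fun M : Mt g (𝓞 F) => M.map (algebraMap (𝓞 F) F)) sA
        simpa [Matrix.IsSymm, Matrix.transpose_map] using this)
      (by
        have := congrArg (fun M : Mt g (𝓞 F) => M.map (algebraMap (𝓞 F) F)) sA'
        simpa [Matrix.IsSymm, Matrix.transpose_map] using this)
      (by
        have t : (mF A).det = algebraMap (𝓞 F) F A.det := (RingHom.map_det _ _).symm
        rw [t]
        intro t0
        apply hdet0
        exact (map_eq_zero_iff _ (FaithfulSMul.algebraMap_injective (𝓞 F) F)).1 t0)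
      (by rw [hchp]; exact irrF hG)
      i ⟨2 * g - 1 - i, by omega⟩ (by simp only; omega)
    have t2 := hTyp.mono ha
    have t3 := hTyp.mono hb
    have t4 : (⟨2 * g - 1 - i, by omega⟩ : Fin (2 * g + 1)) = Fin.rev j := by
      apply Fin.ext
      rw [Fin.val_rev]
      simp only
      omega
    rw [t4, hTyp.anti] at t3
    have z1 : A a b = 0 := zero_of_z (bA a b) (by
      have : (κ : ℤ) ≤ 2 * N := by exact_mod_cast hκN
      linarith)
    have z2 : A' a b = 0 := zero_of_z (bB a b) (by linarith)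
    rcases hab with hab | hab
    · apply hab
      change algebraMap (𝓞 F) F (A a b) = 0
      rw [z1, map_zero]
    · apply hab
      change algebraMap (𝓞 F) F (A' a b) = 0
      rw [z2, map_zero]
  · -- the middle gap or the depth
    · intro i hi
      by_contra hcon'
      push Not at hcon'
      apply hns
      have hz : ∀ a b : Fin (2 * g + 1), (a : ℕ) < g → (b : ℕ) < g → A a b = 0 ∧ A' a b = 0 := by
        intro a b ha hb
        have t2 := hTyp.mono (show a ≤ i from Fin.le_def.2 (by omega))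
        have t3 := hTyp.mono (show b ≤ i from Fin.le_def.2 (by omega))
        constructor
        · exact zero_of_z (bA a b) (by
            have : (κ : ℤ) ≤ 2 * N := by exact_mod_cast hκN
            linarith)
        · exact zero_of_z (bB a b) (by linarith)
      refine h4 g F L f θ hg hG α e hα hli ?_ ?_ hnorm
      · intro a b ha hb
        rw [← hGr.gA, (hz a b ha hb).1]
        exact map_zero (algebraMap (𝓞 F) F)
      · intro a b ha hb
        rw [← hGr.gB, (hz a b ha hb).2]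
        exact map_zero (algebraMap (𝓞 F) F)
  · -- the norm of x
    exact hxn.trans hK0κ
  · -- congruences
    intro q hq hnp 𝔭 hp hqp
    have hq := (Finset.mem_sdiff.1 hq).1
    rw [(hmod 𝔭 hp (hnb q hq 𝔭 hqp) (hnp 𝔭 hp hqp)).1]
    ext1
    rename_i j
    rw [rd, rd, coeff_map, coeff_map, Ideal.Quotient.mk_eq_mk_iff_sub_mem]
    exact (Ideal.span_singleton_le_iff_mem 𝔭).2 hqp (hcg q hq j)
  · -- distinguished
    intro q hq' hnp
    have hq := (Finset.mem_sdiff.1 (hZS hq')).1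
    obtain ⟨-, -, -, -, -, hp, hqp, -⟩ := hS q hq
    exact (hmod (𝔮 q) hp (hnb q hq _ hqp) (hnp _ hp hqp)).2 (hdist q hq')
  · -- not distinguished
    intro q hq' hnp hD
    have hq := (Finset.mem_sdiff.1 (hUS hq')).1
    obtain ⟨-, -, -, -, -, hp, hqp, -⟩ := hS q hq
    have hb0 := hnb q hq _ hqp
    have h5 := distD g F L f θ hG D₁ α Λ e hα hLat heΛ hli A A' hGr (𝔮 q) hp hb0
      (hnp _ hp hqp) hD
    obtain ⟨𝔓, hov, hnq⟩ := hnsq q hq'
    exact hnq (sq1D hI g F L f θ hG hsqf α Λ hα hSDn (𝔮 q) hp hb0 h5 𝔓 hov)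

end Pool.Agent.H68G
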